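import Mathlib
import Pool.Agent.H297R3.SL.Defs
import Pool.Agent.H297R3.SL.Inj

/-!
# Virtual pure braids embed into virtual string links

A virtual pure braid is given by a word `w` in the letters `σ_i`, `σ_i⁻¹`, `ρ_i` with
`toVB w ∈ vP n`. Its monotone diagram `braidDiagram w` is a virtual string link diagram. If the
diagrams of two such words are related by generalized Reidemeister moves (through string link
diagrams which need not be monotone), then the words represent the same element of `vP_n`.

The proof: the birack with faithful virtual braid group actions (on the free group of infinite
rank) satisfies `A u v = u ↔ C u v = v`, so it is a biquandle, and colourings of string link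
diagrams by it are invariant under all Reidemeister moves. The colourings of the diagram of a
braid are the graph of its action.
-/

set_option autoImplicit false

namespace Pool.Agent.Results.MP_e4304e_gt.StringLinkInjective

open Pool.Agent.Helper718.VB
open Pool.Agent.H297R3.SL

/-- For every `n`, the map `vP_n → vSL_n` is injective. -/
theorem result : ∀ (n : ℕ) (w w' : List (Letter n)) (hw : toVB w ∈ vP n) (hw' : toVB w' ∈ vP n),
    (Quot.mk _ ⟨braidDiagram w, braid_isStringLink w hw⟩ : vSL n) =
      Quot.mk _ ⟨braidDiagram w', braid_isStringLink w' hw'⟩ → toVB w = toVB w' :=
  injective_words

end Pool.Agent.Results.MP_e4304e_gt.StringLinkInjective
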